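import Pool.Agent.Helper77.FA.SPECA

/-!
# The coefficients of twists and circle
-/

namespace Pool.Agent.Helper9.FA.Spec77

open Finset Polynomial
open Pool.Agent.Helper9.Kashaev Pool.Agent.Helper9.TG
open scoped Matrix

/-! ### Chebyshev polynomials of the Casimir operator -/

/-- Chebyshev polynomials of the Casimir operator -/
noncomputable def SC77 (N : ℕ) : ℕ → (List ℕ → ℂ) → List ℕ → ℂ
  | 0, f => f
  | 1, f => Cas N f
  | n + 2, f => fun u => Cas N (SC77 N (n + 1) f) u - SC77 N n f u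

lemma SC77_H0 {N : ℕ} (hN : 2 ≤ N) {f : List ℕ → ℂ} (hf : H0 N f) (n : ℕ) :
    H0 N (SC77 N n f) ∧ crd N (SC77 N n f) =
      aeval (LM N) (Chebyshev.S ℂ (n : ℤ)) *ᵥ crd N f := by
  induction n using Nat.strong_induction_on with
  | _ n ih =>
    match n with
    | 0 =>
      refine ⟨hf, ?_⟩
      rw [Nat.cast_zero, Chebyshev.S_zero, map_one, Matrix.one_mulVec]
      rfl
    | 1 =>
      refine ⟨H0_Cas hN hf, ?_⟩
      rw [Nat.cast_one, Chebyshev.S_one, aeval_X]
      exact crd_Cas hN hf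
    | m + 2 =>
      obtain ⟨a1, a2⟩ := ih (m + 1) (by omega)
      obtain ⟨b1, b2⟩ := ih m (by omega)
      have e : SC77 N (m + 2) f = fun u => Cas N (SC77 N (m + 1) f) u +
          (fun u => (-1) * SC77 N m f u) u := by
        funext u
        simp only [SC77]
        ring
      rw [e]
      refine ⟨r3_H0_add (H0_Cas hN a1) (r3_H0_smul (-1) b1), ?_⟩
      rw [r3_crd_add, crd_Cas hN a1, r3_crd_smul, a2, b2]
      push_cast
      rw [Chebyshev.S_add_two, map_sub, map_mul, aeval_X, Matrix.sub_mulVec,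
        Matrix.mulVec_mulVec, neg_smul, one_smul, sub_eq_add_neg]

lemma SC77_right (N n : ℕ) (f : List ℕ → ℂ) (w : List ℕ) :
    ∀ a b : ℕ, SC77 N n f (a :: b :: w) = SC77 N n (fun u => f (u ++ w)) [a, b] := by
  induction n using Nat.strong_induction_on with
  | _ n ih =>
    match n with
    | 0 => intro a b; rfl
    | 1 =>
      intro a b
      simp only [SC77]
      rw [h57_Cas_expl, h57_Cas_expl]
      rfl
    | m + 2 =>
      intro a b
      simp only [SC77]
      rw [h57_Cas_expl, h57_Cas_expl, ih m (by omega), ih (m + 1) (by omega),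
        ih (m + 1) (by omega), ih (m + 1) (by omega)]

/-! ### the circle -/

lemma wf_circle : wf 2 (circle 0) 2 := by
  unfold circle
  simp [wf]

lemma RT_circle {N : ℕ} (hN : 2 ≤ N)
    (hc : ∀ f : List ℕ → ℂ, Sup N 2 f → ∀ a b : ℕ, a < N → b < N →
      RT N (circle 0) f [a, b] = (-1) ^ (N - 1) * SC77 N (N - 1) f [a, b])
    {f : List ℕ → ℂ} (hf : H0 N f) :
    crd N (RT N (circle 0) f) = ((-1 : ℂ) ^ (N - 1)) •
      (aeval (LM N) (Chebyshev.S ℂ ((N : ℤ) - 1)) *ᵥ crd N f) := by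
  have h0 := SC77_H0 hN hf (N - 1)
  have hR := r3_H0_RT hN (r3_wf_right wf_circle) hf
  have e : RT N (circle 0) f = fun u => (-1) ^ (N - 1) * SC77 N (N - 1) f u := by
    funext u
    by_cases hu : u.length = 3 ∧ ∀ x ∈ u, x < N
    · obtain ⟨x, y, z, rfl⟩ := List.length_eq_three.mp hu.1
      have e1 : [x, y, z] = [x, y] ++ [z] := rfl
      have hx : x < N := hu.2 x (by simp)
      have hy : y < N := hu.2 y (by simp)
      have hS : Sup N 2 (fun u => f (u ++ [z])) := by
        intro v hv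
        apply hf.sup
        rintro ⟨h2, h3⟩
        apply hv
        refine ⟨by simpa using h2, fun x hx => h3 x (by simp [hx])⟩
      rw [SC77_right N (N - 1) f [z], ← hc _ hS x y hx hy, e1]
      exact RT_right (N := N) wf_circle f [x, y] [z] rfl
    · rw [hR.sup u hu, h0.1.sup u hu, mul_zero]
  rw [e, r3_crd_smul, h0.2]
  congr 5
  omega

/-! ### the twists -/

lemma wf_twists (a : ℤ) : wf 2 (twists 0 a) 2 := by
  unfold twists
  induction a.natAbs with
  | zero => rfl
  | succ r ih =>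
    rw [List.replicate_succ]
    split_ifs with h
    · rw [if_pos h] at ih
      exact ⟨by omega, ih⟩
    · rw [if_neg h] at ih
      exact ⟨by omega, ih⟩

lemma wf_app {n m l : ℕ} {D D' : Diagram} (h : wf n D m) (h' : wf m D' l) : wf n (D ++ D') l := by
  induction D generalizing n with
  | nil => simp only [wf] at h; subst h; exact h'
  | cons s D ih =>
    obtain ⟨k, p⟩ := s
    cases p with
    | cup =>
      simp only [wf, List.cons_append] at h ⊢
      exact ⟨h.1, ih h.2⟩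
    | cap =>
      simp only [wf, List.cons_append] at h ⊢
      exact ⟨h.1, ih h.2⟩
    | pos =>
      simp only [wf, List.cons_append] at h ⊢
      exact ⟨h.1, ih h.2⟩
    | neg =>
      simp only [wf, List.cons_append] at h ⊢
      exact ⟨h.1, ih h.2⟩

lemma comm_aeval {N : ℕ} {A : Matrix (Fin N) (Fin N) ℂ} (h : A * LM N = LM N * A) (p : ℂ[X]) :
    A * aeval (LM N) p = aeval (LM N) p * A := by
  induction p using Polynomial.induction_on' with
  | add p q hp hq => rw [map_add, mul_add, add_mul, hp, hq]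
  | monomial n a =>
    rw [aeval_monomial, Algebra.algebraMap_eq_smul_one, Matrix.smul_mul, Matrix.one_mul,
      Matrix.mul_smul, Matrix.smul_mul]
    congr 1
    exact (Commute.pow_right (show Commute A (LM N) from h) n)

/-- the square root of the framing factor -/
noncomputable def dl (N : ℕ) : ℂ := TB.ex (-(((N : ℝ) - 1) ^ 2 / (4 * N)))

lemma norm_dl (N : ℕ) : ‖dl N‖ = 1 := TB.norm_ex _

lemma ex_nat_mul (x : ℝ) (r : ℕ) : TB.ex x ^ r = TB.ex (r * x) := by
  unfold TB.ex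
  rw [← Complex.exp_nat_mul]
  congr 1
  push_cast
  ring

lemma ex_conj (x : ℝ) : (starRingEnd ℂ) (TB.ex x) = TB.ex (-x) := by
  rw [TB.ex_eq, TB.ex_eq, map_add, map_mul, Complex.conj_ofReal, Complex.conj_ofReal,
    Complex.conj_I, show Real.pi * -x = -(Real.pi * x) by ring, Real.cos_neg, Real.sin_neg]
  push_cast
  ring

lemma thx_eq (N : ℕ) (a : ℤ) (k : ℕ) :
    thx N a k = TB.ex (a * ((k : ℝ) - (N - 1) / 2) ^ 2 / N) := by
  unfold thx TB.ex
  congr 1
  push_cast
  ring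

lemma mu_eq {N : ℕ} (hN : 2 ≤ N) (k : ℕ) :
    TB.mu N k = TB.ex (((k : ℝ) - (N - 1) / 2) ^ 2 / N) * dl N := by
  have hN0 : (N : ℝ) ≠ 0 := by positivity
  unfold TB.mu dl
  rw [← TB.ex_natCast, ← TB.ex_add, ← TB.ex_add]
  have e : (((k : ℝ) - (N - 1) / 2) ^ 2 / N + -(((N : ℝ) - 1) ^ 2 / (4 * N))) =
      -((k : ℕ) : ℝ) + k * (k + 1) / N := by
    field_simp
    ring
  rw [e, TB.ex_add, TB.ex_add]
  congr 1
  rw [TB.ex_natCast]
  have h3 : TB.ex (-((k : ℕ) : ℝ)) * TB.ex ((k : ℕ) : ℝ) = 1 := by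
    rw [← TB.ex_add, neg_add_cancel]
    unfold TB.ex; simp
  rw [TB.ex_natCast] at h3
  have h4 : ((-1 : ℂ)) ^ k * (-1) ^ k = 1 := by rw [← mul_pow]; norm_num
  calc ((-1 : ℂ)) ^ k = (TB.ex (-((k : ℕ) : ℝ)) * (-1) ^ k) * (-1) ^ k := by rw [h3, one_mul]
    _ = TB.ex (-((k : ℕ) : ℝ)) := by rw [mul_assoc, h4, mul_one]

/-- the action of the twists on coordinates -/
lemma crd_twists {N : ℕ} (hN : 2 ≤ N) (a : ℤ) {f : List ℕ → ℂ} (hf : H0 N f) :
    ∃ (φ : ℂ) (A : Matrix (Fin N) (Fin N) ℂ), ‖φ‖ = 1 ∧ A * LM N = LM N * A ∧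
      crd N (RT N (twists 0 a) f) = φ • (A *ᵥ crd N f) ∧
      ∀ k, k < N → φ • (A *ᵥ Yv N k) = (dl N ^ (a : ℤ) * (if 0 < a then tht N 0 0 ^ a.natAbs else
        (starRingEnd ℂ) (tht N 0 0) ^ a.natAbs) * thx N a k) • Yv N k := by
  have hlt : (N : ℝ) < (N : ℝ) + 1 := by linarith
  have hLT := TB.AM_LT (N := N) (M := N) hlt
  have hcm : TB.AM N N * LM N = LM N * TB.AM N N := TB.AM_comm hlt
  have hcp : TB.AM N N ^ a.natAbs * LM N = LM N * TB.AM N N ^ a.natAbs :=
    ((show Commute (TB.AM N N) (LM N) from hcm).pow_left _)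
  have hdl : dl N ≠ 0 := by
    intro h
    have := norm_dl N
    rw [h, norm_zero] at this
    exact zero_ne_one this
  have hY : ∀ k, k < N → (TB.AM N N ^ a.natAbs) *ᵥ Yv N k = (TB.mu N k ^ a.natAbs) • Yv N k := by
    intro k hk
    rw [LT_Yv hN hk (hLT.pow a.natAbs) hcp, mu_max hN hk]
  by_cases ha : 0 < a
  · refine ⟨tht N 0 0 ^ a.natAbs, TB.AM N N ^ a.natAbs, ?_, hcp, ?_, ?_⟩
    · rw [norm_pow, norm_tht, one_pow]
    · have : twists 0 a = List.replicate a.natAbs (0, .pos) := by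
        unfold twists; rw [if_pos ha]
      rw [this, r4_pos hN _ hf]
    · intro k hk
      rw [hY k hk, smul_smul, if_pos ha, mu_eq hN, thx_eq]
      congr 1
      have e1 : (a : ℤ) = (a.natAbs : ℤ) := by omega
      have e2 : (a : ℝ) = (a.natAbs : ℝ) := by rw [← Int.cast_natCast (R := ℝ), ← e1]
      have e3 : dl N ^ (a : ℤ) = dl N ^ a.natAbs := by
        conv_lhs => rw [e1]
        rw [zpow_natCast]
      rw [e3, e2, mul_pow, ex_nat_mul, mul_div_assoc]
      ring
  · refine ⟨(starRingEnd ℂ) (tht N 0 0) ^ a.natAbs, (TB.AM N N ^ a.natAbs).map (starRingEnd ℂ),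
      ?_, ?_, ?_, ?_⟩
    · rw [norm_pow, RCLike.norm_conj, norm_tht, one_pow]
    · have h1 := congrArg (fun M : Matrix (Fin N) (Fin N) ℂ => M.map (starRingEnd ℂ)) hcp
      simp only [Matrix.map_mul] at h1
      have h2 : (LM N).map (starRingEnd ℂ) = LM N := by
        ext i j; rw [Matrix.map_apply, r4_LM_conj]
      rwa [h2] at h1
    · have : twists 0 a = List.replicate a.natAbs (0, .neg) := by
        unfold twists; rw [if_neg ha]
      rw [this, r4_neg hN _ hf]
    · intro k hk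
      have hYr : (fun j => (starRingEnd ℂ) (Yv N k j)) = Yv N k := by
        funext j
        rw [Yv_eq hN hk, map_mul, map_mul, map_pow, map_pow, map_neg, map_one, Complex.conj_ofReal,
          map_natCast]
      have h1 : ((TB.AM N N ^ a.natAbs).map (starRingEnd ℂ)) *ᵥ Yv N k =
          ((starRingEnd ℂ) (TB.mu N k) ^ a.natAbs) • Yv N k := by
        funext i
        have h2 := r4_conj_mulVec (TB.AM N N ^ a.natAbs) (Yv N k) i
        rw [hYr, hY k hk] at h2
        rw [← h2, Pi.smul_apply, Pi.smul_apply, smul_eq_mul, smul_eq_mul, map_mul, map_pow]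
        congr 1
        exact congrFun hYr i
      rw [h1, smul_smul, if_neg ha, mu_eq hN, thx_eq]
      congr 1
      have e1 : (a : ℤ) = -(a.natAbs : ℤ) := by omega
      have e2 : (a : ℝ) = -(a.natAbs : ℝ) := by
        rw [← Int.cast_natCast (R := ℝ), ← Int.cast_neg, ← e1]
      have e3 : dl N ^ (a : ℤ) = (starRingEnd ℂ) (dl N) ^ a.natAbs := by
        conv_lhs => rw [e1]
        rw [zpow_neg, zpow_natCast, ← inv_pow]
        congr 1
        rw [← mul_left_inj' hdl, inv_mul_cancel₀ hdl, mul_comm, Complex.mul_conj, Complex.normSq_eq_norm_sq,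
          norm_dl]
        simp
      rw [e3, e2, map_mul, mul_pow, ex_conj, ex_nat_mul]
      have e4 : ((a.natAbs : ℝ) * -(((k : ℝ) - (N - 1) / 2) ^ 2 / N)) =
          (-(a.natAbs : ℝ) * ((k : ℝ) - (N - 1) / 2) ^ 2 / N) := by ring
      rw [e4]
      ring

/-- the coefficients of twists and circle -/
theorem coef_fal_of {N : ℕ} (hN : 2 ≤ N)
    (hc : ∀ f : List ℕ → ℂ, Sup N 2 f → ∀ a b : ℕ, a < N → b < N →
      RT N (circle 0) f [a, b] = (-1) ^ (N - 1) * SC77 N (N - 1) f [a, b]) (a : ℤ) :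
    ∃ φ : ℂ, ‖φ‖ = 1 ∧
    Coef N (twists 0 a ++ circle 0) (fun m => φ * N * GG N a (N - 1 - m)) := by
  have hN0 : (N : ℂ) ≠ 0 := by
    have : (N : ℝ) ≠ 0 := by positivity
    exact_mod_cast this
  obtain ⟨κ, hκ, h1⟩ := crd_cup1 hN
  have hf0 := H0_cup1 hN
  obtain ⟨φ, A, hφ, hA, hcr, hY⟩ := crd_twists hN a hf0
  set ψ : ℂ := dl N ^ (a : ℤ) * (if 0 < a then tht N 0 0 ^ a.natAbs else
        (starRingEnd ℂ) (tht N 0 0) ^ a.natAbs) with hψ
  have hψn : ‖ψ‖ = 1 := by
    rw [hψ, norm_mul, norm_zpow, norm_dl, one_zpow, one_mul]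
    split_ifs
    · rw [norm_pow, norm_tht, one_pow]
    · rw [norm_pow, RCLike.norm_conj, norm_tht, one_pow]
  refine ⟨ψ, hψn, ?_⟩
  have hg := r3_H0_RT hN (r3_wf_right (wf_twists a)) hf0
  have hw : wf 2 (twists 0 a ++ circle 0) 2 := wf_app (wf_twists a) wf_circle
  have key : crd N (RT N (twists 0 a ++ circle 0) (slice N .cup 1 (ket [0]))) =
      κ • (fun m : Fin N => ψ * N * GG N a (N - 1 - m)) := by
    rw [RT_append, RT_circle hN hc hg, hcr, h1, Matrix.mulVec_smul, Matrix.mulVec_smul,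
      Matrix.mulVec_smul, Matrix.mulVec_mulVec, ← comm_aeval hA, ← Matrix.mulVec_mulVec,
      aeval_cheb hN, Matrix.mulVec_smul, Matrix.mulVec_sum,
      smul_comm φ κ, smul_comm ((-1 : ℂ) ^ (N - 1)) κ]
    congr 1
    rw [smul_comm φ, smul_sum, sum_congr rfl (fun k hk => hY k (mem_range.mp hk))]
    funext t
    rw [Pi.smul_apply, Pi.smul_apply, Finset.sum_apply]
    simp only [Pi.smul_apply, smul_eq_mul]
    unfold GG
    rw [mul_sum, mul_sum, mul_sum]
    apply sum_congr rfl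
    intro k hk
    rw [Yv_eq hN (mem_range.mp hk)]
    have h2 : ((-1 : ℂ)) ^ (N - 1) * (-1) ^ (N - 1) = 1 := by rw [← mul_pow]; norm_num
    have h3 : (N : ℂ)⁻¹ * (N : ℂ) ^ 2 = N := by field_simp
    linear_combination (ψ * thx N a k *
      ((bn N k (N - 1 - t) * bn N (N - 1 - k) (N - 1 - t) : ℝ) : ℂ)) *
        ((N : ℂ)⁻¹ * (N : ℂ) ^ 2 * h2 + h3)
  intro f hf x y
  rw [r3_gen2 hN hw h1 key hf x y, r3_L_apply,
    Fin.sum_univ_eq_sum_range (fun m => ψ * N * GG N a (N - 1 - m) * nC N m f [x, y]) N]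

end Pool.Agent.Helper9.FA.Spec77
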