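import Mathlib
import Pool.Agent.Helper6.TF.Entry
import Pool.Agent.Helper11.TG.R4
import Pool.Agent.Helper9.FA.ZDefs

/-!
# The Chebyshev polynomial of the Casimir matrix, and its eigenvectors
-/

namespace Pool.Agent.Helper9.FA.Spec77

open Finset Polynomial
open Pool.Agent.Helper9.Kashaev Pool.Agent.Helper9.TG
open scoped Matrix

/-! ### polynomials -/

lemma cheb_C_eval (n : ℕ) (z : ℂ) (hz : z ≠ 0) :
    (Chebyshev.C ℂ n).eval (z + z⁻¹) = z ^ n + (z⁻¹) ^ n := by
  induction n using Nat.strong_induction_on with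
  | _ n ih =>
    match n with
    | 0 => simp; norm_num
    | 1 => simp
    | m + 2 =>
      have h1 := ih (m + 1) (by omega)
      have h0 := ih m (by omega)
      push_cast at h1 h0 ⊢
      rw [Chebyshev.C_add_two, eval_sub, eval_mul, eval_X, h1, h0]
      have hw : z * z⁻¹ = 1 := mul_inv_cancel₀ hz
      linear_combination (z ^ m + z⁻¹ ^ m) * hw

lemma cheb_C_add_two {N : ℕ} (hN : 2 ≤ N) :
    Chebyshev.C ℂ N + 2 = ∏ k ∈ range N, (X - Polynomial.C (TB.lam N k)) := by
  apply Polynomial.funext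
  intro x
  obtain ⟨z, hz0, hz⟩ : ∃ z : ℂ, z ≠ 0 ∧ x = z + z⁻¹ := by
    obtain ⟨z, hz⟩ := IsAlgClosed.exists_root (X ^ 2 - Polynomial.C x * X + 1 : ℂ[X]) (by
      have : (X ^ 2 - Polynomial.C x * X + 1 : ℂ[X]).natDegree = 2 := by compute_degree!
      intro h
      rw [natDegree_eq_of_degree_eq_some h] at this
      exact absurd this (by norm_num))
    have h1 : z ^ 2 - x * z + 1 = 0 := by
      have := hz
      simpa [IsRoot.def] using this
    have hz0 : z ≠ 0 := by
      rintro rfl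
      simp at h1
    refine ⟨z, hz0, ?_⟩
    field_simp
    linear_combination -h1
  have hN0 : (N : ℂ) ≠ 0 := by
    have : (N : ℝ) ≠ 0 := by positivity
    exact_mod_cast this
  subst hz
  rw [eval_add, cheb_C_eval N z hz0, eval_prod]
  set ω : ℕ → ℂ := fun k => TB.ex ((2 * k + 1) / N) with hω
  have hlam : ∀ k : ℕ, TB.lam N k = ω k + (ω k)⁻¹ := by
    intro k
    have e : (ω k)⁻¹ = TB.ex (-((2 * k + 1) / N)) := by
      rw [hω]
      unfold TB.ex
      rw [← Complex.exp_neg]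
      congr 1
      push_cast
      ring
    rw [e, hω]
    simp only
    rw [TB.ex_eq, TB.ex_eq]
    unfold TB.lam TB.lamR
    rw [mul_neg, Real.cos_neg, Real.sin_neg]
    push_cast
    ring
  have hωne : ∀ k, ω k ≠ 0 := fun k => TB.ex_ne _
  have hfac : ∀ k ∈ range N, eval (z + z⁻¹) (X - Polynomial.C (TB.lam N k)) =
      (z - ω k) * (z⁻¹ * (z - (ω k)⁻¹)) := by
    intro k _
    rw [eval_sub, eval_X, eval_C, hlam]
    have := hωne k
    field_simp
    ring
  rw [prod_congr rfl hfac, prod_mul_distrib, prod_mul_distrib, prod_const, card_range]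
  have hζ := Complex.isPrimitiveRoot_exp N (by omega)
  have hωk : ∀ k, ω k = Complex.exp (2 * Real.pi * Complex.I / N) ^ k * ω 0 := by
    intro k
    rw [hω]
    simp only
    unfold TB.ex
    rw [← Complex.exp_nat_mul, ← Complex.exp_add]
    congr 1
    push_cast
    field_simp
    ring
  have hω0 : ω 0 ^ N = -1 := by
    rw [hω]
    simp only
    unfold TB.ex
    rw [← Complex.exp_nat_mul]
    have : (N : ℂ) * (Real.pi * Complex.I * (((2 * (0 : ℕ) + 1) / N : ℝ) : ℂ)) =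
        Real.pi * Complex.I := by
      push_cast
      field_simp
      ring
    rw [this, Complex.exp_pi_mul_I]
  have p1 : ∏ k ∈ range N, (z - ω k) = z ^ N + 1 := by
    have h := X_pow_sub_C_eq_prod (R := ℂ) hζ (by omega : 0 < N) hω0
    have h2 := congrArg (eval z) h
    rw [eval_sub, eval_pow, eval_X, eval_C, eval_prod] at h2
    rw [show z ^ N + 1 = z ^ N - -1 by ring, h2]
    apply prod_congr rfl
    intro k _
    rw [eval_sub, eval_X, eval_C, hωk k]
  have p2 : ∏ k ∈ range N, (z - (ω k)⁻¹) = z ^ N + 1 := by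
    have h := X_pow_sub_C_eq_prod (R := ℂ) hζ.inv (by omega : 0 < N)
      (show ((ω 0)⁻¹) ^ N = -1 by rw [inv_pow, hω0]; norm_num)
    have h2 := congrArg (eval z) h
    rw [eval_sub, eval_pow, eval_X, eval_C, eval_prod] at h2
    rw [show z ^ N + 1 = z ^ N - -1 by ring, h2]
    apply prod_congr rfl
    intro k _
    rw [eval_sub, eval_X, eval_C, hωk k, mul_inv, inv_pow]
  rw [p1, p2]
  have hz' : z ^ N ≠ 0 := pow_ne_zero _ hz0
  have e2 : eval (z + z⁻¹) (2 : ℂ[X]) = 2 := by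
    rw [show (2 : ℂ[X]) = Polynomial.C 2 by rfl, eval_C]
  rw [e2, inv_pow]
  field_simp
  ring

lemma cheb_deriv (n : ℤ) : derivative (Chebyshev.C ℂ n) = (n : ℂ[X]) * Chebyshev.S ℂ (n - 1) := by
  have h := congrArg derivative (Chebyshev.C_comp_two_mul_X ℂ n)
  rw [derivative_comp, derivative_mul, derivative_mul, Chebyshev.T_derivative_eq_U] at h
  simp only [derivative_ofNat, derivative_X, zero_mul, mul_one, zero_add] at h
  have h1 : (derivative (Chebyshev.C ℂ n)).comp (2 * X) =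
      ((n : ℂ[X]) * Chebyshev.S ℂ (n - 1)).comp (2 * X) := by
    rw [mul_comp, Chebyshev.S_comp_two_mul_X, intCast_comp]
    have h2 : (2 : ℂ[X]) ≠ 0 := two_ne_zero
    exact mul_left_cancel₀ h2 h
  have h3 := congrArg (fun p => p.comp (Polynomial.C (1 / 2 : ℂ) * X)) h1
  simp only [comp_assoc] at h3
  have h4 : ((2 : ℂ[X]) * X).comp (Polynomial.C (1 / 2 : ℂ) * X) = X := by
    have h5 : (2 : ℂ[X]) = Polynomial.C 2 := rfl
    rw [h5, mul_comp, X_comp, C_comp, ← mul_assoc, ← C_mul]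
    norm_num
  rwa [h4, comp_X, comp_X] at h3

/-- the Newton polynomials -/
noncomputable def nP (N t : ℕ) : ℂ[X] := ∏ j ∈ range t, (X - Polynomial.C (TB.lam N j))

lemma nP_succ (N t : ℕ) : nP N (t + 1) = nP N t * (X - Polynomial.C (TB.lam N t)) := by
  unfold nP; rw [prod_range_succ]

/-- all factors but one -/
noncomputable def eP (N k : ℕ) : ℂ[X] :=
  ∏ j ∈ (range N).erase k, (X - Polynomial.C (TB.lam N j))

lemma eP_mul {N k : ℕ} (hk : k < N) : (X - Polynomial.C (TB.lam N k)) * eP N k = nP N N :=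
  mul_prod_erase (range N) (fun j => X - Polynomial.C (TB.lam N j)) (mem_range.mpr hk)

lemma cheb_S {N : ℕ} (hN : 2 ≤ N) :
    (N : ℂ[X]) * Chebyshev.S ℂ ((N : ℤ) - 1) = ∑ k ∈ range N, eP N k := by
  have h := congrArg derivative (cheb_C_add_two hN)
  rw [derivative_add, cheb_deriv, derivative_prod_finset] at h
  simp only [derivative_ofNat, add_zero, derivative_sub, derivative_X, derivative_C, sub_zero,
    mul_one] at h
  have e : ((N : ℤ) : ℂ[X]) = (N : ℂ[X]) := by push_cast; rfl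
  rw [e] at h
  exact h

/-- the product of the differences with the later nodes -/
noncomputable def dI (N k t : ℕ) : ℂ := ∏ j ∈ Ico t N, (TB.lam N k - TB.lam N j)

lemma dI_step {N k t : ℕ} (ht : t < N) :
    dI N k t = (TB.lam N k - TB.lam N t) * dI N k (t + 1) := by
  unfold dI; rw [prod_eq_prod_Ico_succ_bot ht]

lemma dI_zero {N k t : ℕ} (h1 : t ≤ k) (h2 : k < N) : dI N k t = 0 := by
  unfold dI
  exact prod_eq_zero (mem_Ico.mpr ⟨h1, h2⟩) (sub_self _)

lemma eP_eq {N k : ℕ} (hk : k < N) :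
    eP N k = ∑ t ∈ range N, nP N t * Polynomial.C (dI N k (t + 1)) := by
  have hne : (X - Polynomial.C (TB.lam N k) : ℂ[X]) ≠ 0 := X_sub_C_ne_zero _
  apply mul_left_cancel₀ hne
  rw [eP_mul hk, mul_sum]
  have h : ∀ t ∈ range N, (X - Polynomial.C (TB.lam N k)) * (nP N t * Polynomial.C (dI N k (t + 1))) =
      nP N (t + 1) * Polynomial.C (dI N k (t + 1)) - nP N t * Polynomial.C (dI N k t) := by
    intro t ht
    rw [mem_range] at ht
    rw [nP_succ, dI_step ht, C_mul, C_sub]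
    ring
  rw [sum_congr rfl h, sum_range_sub (fun t => nP N t * Polynomial.C (dI N k t))]
  rw [dI_zero (Nat.zero_le _) hk, C_0, mul_zero, sub_zero]
  unfold dI
  simp

/-! ### matrices -/

/-- the products of the entries below the diagonal -/
noncomputable def bP (N t : ℕ) : ℂ := ∏ j ∈ range t, TB.bb N (j + 1 : ℕ)

lemma bP_succ (N t : ℕ) : bP N (t + 1) = bP N t * TB.bb N (t + 1 : ℕ) := by
  unfold bP; rw [prod_range_succ]

lemma bP_ne {N t : ℕ} (ht : t < N) : bP N t ≠ 0 := by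
  unfold bP
  rw [prod_ne_zero_iff]
  intro j hj
  rw [mem_range] at hj
  exact r4_bb_ne (Nat.succ_pos j) (by omega)

lemma aeval_nP {N t : ℕ} (ht : t < N) : aeval (LM N) (nP N t) = bP N t • nM N t := by
  induction t with
  | zero => simp [nP, bP, nM]
  | succ t ih =>
    have hb : TB.bb N (t + 1 : ℕ) ≠ 0 := r4_bb_ne (Nat.succ_pos t) ht
    rw [nP_succ, mul_comm, map_mul, ih (by omega), map_sub, aeval_X, aeval_C, nM, bP_succ,
      smul_smul, mul_assoc, mul_inv_cancel₀ hb, mul_one, Matrix.mul_smul,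
      Algebra.algebraMap_eq_smul_one]

/-- the eigenvectors -/
noncomputable def Yv (N k : ℕ) : Fin N → ℂ := fun t => bP N t * dI N k (t + 1)

lemma aeval_eP {N k : ℕ} (hk : k < N) : aeval (LM N) (eP N k) *ᵥ e0 N = Yv N k := by
  rw [eP_eq hk, map_sum, Matrix.sum_mulVec]
  funext i
  rw [Finset.sum_apply, Finset.sum_eq_single (i : ℕ)]
  · rw [map_mul, aeval_nP i.2, aeval_C, Algebra.algebraMap_eq_smul_one, Matrix.mul_smul,
      Matrix.mul_one, smul_smul, Matrix.smul_mulVec, r4_nM_e0 i.2]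
    simp only [Pi.smul_apply, smul_eq_mul, if_true, mul_one]
    unfold Yv
    ring
  · intro t ht hti
    rw [mem_range] at ht
    rw [map_mul, aeval_nP ht, aeval_C, Algebra.algebraMap_eq_smul_one, Matrix.mul_smul,
      Matrix.mul_one, smul_smul, Matrix.smul_mulVec, r4_nM_e0 ht]
    simp only [Pi.smul_apply, smul_eq_mul]
    rw [if_neg (fun h => hti h.symm), mul_zero]
  · intro h
    exact absurd (mem_range.mpr i.2) h

lemma aeval_cheb {N : ℕ} (hN : 2 ≤ N) :
    aeval (LM N) (Chebyshev.S ℂ ((N : ℤ) - 1)) *ᵥ e0 N = (N : ℂ)⁻¹ • ∑ k ∈ range N, Yv N k := by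
  have hN0 : (N : ℂ) ≠ 0 := by
    have : (N : ℝ) ≠ 0 := by positivity
    exact_mod_cast this
  have h := congrArg (fun p => aeval (LM N) p *ᵥ e0 N) (cheb_S hN)
  rw [map_mul, map_natCast, map_sum, Matrix.sum_mulVec] at h
  have h1 : ((N : ℕ) : Matrix (Fin N) (Fin N) ℂ) = (N : ℂ) • 1 := by
    rw [← Algebra.algebraMap_eq_smul_one, map_natCast]
  rw [h1, Matrix.smul_mul, Matrix.one_mul, Matrix.smul_mulVec,
    sum_congr rfl (fun k hk => aeval_eP (mem_range.mp hk))] at h
  rw [← h, smul_smul, inv_mul_cancel₀ hN0, one_smul]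

lemma LM_mulVec {N : ℕ} (u : Fin N → ℂ) (i : Fin N) : (LM N *ᵥ u) i =
    TB.lam N i * u i + (if h : 0 < (i : ℕ) then TB.bb N i * u ⟨i - 1, by omega⟩ else 0) :=
  TB.Bm_mul (TB.lam N) (TB.bb N) (Matrix.of fun a _ => u a) i i

lemma LM_Yv {N k : ℕ} (hk : k < N) : LM N *ᵥ Yv N k = TB.lam N k • Yv N k := by
  funext i
  rw [LM_mulVec, Pi.smul_apply, smul_eq_mul]
  by_cases h : 0 < (i : ℕ)
  · rw [dif_pos h]
    obtain ⟨j, hj⟩ : ∃ j, (i : ℕ) = j + 1 := ⟨i - 1, by omega⟩
    unfold Yv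
    have e1 : ((⟨(i : ℕ) - 1, by omega⟩ : Fin N) : ℕ) = j := by simp only; omega
    rw [e1, hj, dI_step (N := N) (k := k) (t := j + 1) (by have := i.2; omega), bP_succ]
    ring
  · rw [dif_neg h]
    have h0 : (i : ℕ) = 0 := by omega
    unfold Yv
    rw [h0]
    have h1 := dI_step (N := N) (k := k) (t := 0) (by omega)
    rw [dI_zero (Nat.zero_le _) hk] at h1
    linear_combination (bP N 0) * h1

lemma last_ne {N k : ℕ} (hN : 2 ≤ N) : Yv N k ⟨N - 1, by omega⟩ ≠ 0 := by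
  show bP N (N - 1) * dI N k (N - 1 + 1) ≠ 0
  rw [show N - 1 + 1 = N by omega]
  have : dI N k N = 1 := by unfold dI; simp
  rw [this, mul_one]
  exact bP_ne (by omega)

/-- an eigenvector is determined by its last coordinate -/
lemma eig_unique {N k : ℕ} (hN : 2 ≤ N) {u w : Fin N → ℂ}
    (hu : LM N *ᵥ u = TB.lam N k • u) (hw : LM N *ᵥ w = TB.lam N k • w) :
    ∀ n : ℕ, ∀ h : n < N, u ⟨N - 1 - n, by omega⟩ * w ⟨N - 1, by omega⟩ =
      w ⟨N - 1 - n, by omega⟩ * u ⟨N - 1, by omega⟩ := by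
  intro n
  induction n with
  | zero => intro h; simp only [Nat.sub_zero]; ring
  | succ n ih =>
    intro h
    have h1 := congrFun hu ⟨N - 1 - n, by omega⟩
    have h2 := congrFun hw ⟨N - 1 - n, by omega⟩
    rw [LM_mulVec, Pi.smul_apply, smul_eq_mul, dif_pos (show 0 < N - 1 - n by omega)] at h1 h2
    have h3 := ih (by omega)
    have e : (⟨N - 1 - n - 1, by omega⟩ : Fin N) = ⟨N - 1 - (n + 1), by omega⟩ :=
      Fin.ext (by simp only; omega)
    simp only [e] at h1 h2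
    have hb : TB.bb N (N - 1 - n : ℕ) ≠ 0 := r4_bb_ne (by omega) (by omega)
    apply mul_left_cancel₀ hb
    linear_combination (w ⟨N - 1, by omega⟩) * h1 - (u ⟨N - 1, by omega⟩) * h2 +
      (TB.lam N k - TB.lam N (N - 1 - n : ℕ)) * h3

/-- lower triangular matrices commuting with `LM` on the eigenvectors -/
lemma LT_Yv {N k : ℕ} (hN : 2 ≤ N) (hk : k < N) {A : Matrix (Fin N) (Fin N) ℂ} {ν : ℕ → ℂ}
    (hA : TB.LT A ν) (hc : A * LM N = LM N * A) :
    A *ᵥ Yv N k = ν (max k (N - 1 - k)) • Yv N k := by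
  have h1 : LM N *ᵥ (A *ᵥ Yv N k) = TB.lam N k • (A *ᵥ Yv N k) := by
    rw [Matrix.mulVec_mulVec, ← hc, ← Matrix.mulVec_mulVec, LM_Yv hk, Matrix.mulVec_smul]
  have h2 := eig_unique hN h1 (LM_Yv hk)
  set L : Fin N := ⟨N - 1, by omega⟩ with hL
  have hYL : Yv N k L ≠ 0 := last_ne hN
  set c : ℂ := (A *ᵥ Yv N k) L / Yv N k L with hcdef
  have h3 : ∀ i : Fin N, (A *ᵥ Yv N k) i = c * Yv N k i := by
    intro i
    have h4 := h2 (N - 1 - i) (by omega)
    have e : (⟨N - 1 - (N - 1 - (i : ℕ)), by omega⟩ : Fin N) = i :=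
      Fin.ext (by simp only; have := i.2; omega)
    rw [e] at h4
    rw [hcdef]
    field_simp
    linear_combination h4
  have hlamr : TB.lam N (N - 1 - k : ℕ) = TB.lam N k := TF.lam_reflect hk
  set t0 := max k (N - 1 - k) with ht0
  have ht0N : t0 < N := by omega
  have hzero : ∀ l : ℕ, l < t0 → dI N k (l + 1) = 0 := by
    intro l hl
    rcases lt_max_iff.mp hl with h | h
    · exact dI_zero h hk
    · unfold dI
      apply prod_eq_zero (mem_Ico.mpr ⟨h, (by omega : N - 1 - k < N)⟩)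
      rw [hlamr, sub_self]
  have hne : Yv N k ⟨t0, ht0N⟩ ≠ 0 := by
    unfold Yv
    apply mul_ne_zero (bP_ne ht0N)
    unfold dI
    rw [prod_ne_zero_iff]
    intro j hj
    rw [mem_Ico] at hj
    simp only at hj
    have hk' : k ≤ t0 := le_max_left _ _
    have hk'' : N - 1 - k ≤ t0 := le_max_right _ _
    intro h0
    have h5 : TB.lamR N j - TB.lamR N k = 0 := by
      unfold TB.lam at h0
      have h6 := sub_eq_zero.mp h0
      have := Complex.ofReal_injective h6
      rw [this]; ring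
    rw [TB.lamR_sub N j k (by omega), neg_eq_zero, mul_eq_zero] at h5
    have hNpos : (0 : ℝ) < N := by positivity
    rcases h5 with h5 | h5
    · have e : (((j + k + 1 : ℕ) : ℝ) / N) = 1 + ((j + k + 1 - N : ℕ) : ℝ) / N := by
        rw [Nat.cast_sub (by omega)]; field_simp; ring
      rw [e] at h5
      have h6 : TB.sb (1 + ((j + k + 1 - N : ℕ) : ℝ) / N) =
          - TB.sb (((j + k + 1 - N : ℕ) : ℝ) / N) := by
        unfold TB.sb
        rw [mul_add, mul_one, add_comm Real.pi, Real.sin_add_pi]; ring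
      rw [h6, neg_eq_zero] at h5
      have h7 : 0 < TB.sb (((j + k + 1 - N : ℕ) : ℝ) / N) := by
        apply TB.sb_pos
        · have : (0 : ℝ) < ((j + k + 1 - N : ℕ) : ℝ) := by
            exact_mod_cast (by omega : 0 < j + k + 1 - N)
          positivity
        · rw [div_lt_one hNpos]
          exact_mod_cast (by omega : j + k + 1 - N < N)
      linarith
    · have h7 : 0 < TB.sb (((j - k : ℕ) : ℝ) / N) := by
        apply TB.sb_pos
        · have : (0 : ℝ) < ((j - k : ℕ) : ℝ) := by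
            exact_mod_cast (by omega : 0 < j - k)
          positivity
        · rw [div_lt_one hNpos]
          exact_mod_cast (by omega : j - k < N)
      linarith
  have h8 : (A *ᵥ Yv N k) ⟨t0, ht0N⟩ = ν t0 * Yv N k ⟨t0, ht0N⟩ := by
    show ∑ j : Fin N, A ⟨t0, ht0N⟩ j * Yv N k j = _
    rw [Finset.sum_eq_single (⟨t0, ht0N⟩ : Fin N)]
    · rw [hA.2]
    · intro l _ hl
      rcases lt_or_gt_of_ne hl with h | h
      · have : Yv N k l = 0 := by
          unfold Yv
          rw [hzero l h, mul_zero]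
        rw [this, mul_zero]
      · rw [hA.1 _ _ h, zero_mul]
    · intro h; exact absurd (mem_univ _) h
  rw [h3] at h8
  have hcv := mul_right_cancel₀ hne h8
  funext i
  rw [h3, hcv, Pi.smul_apply, smul_eq_mul]

lemma mu_max {N k : ℕ} (hN : 2 ≤ N) (hk : k < N) : TB.mu N (max k (N - 1 - k)) = TB.mu N k := by
  rcases max_choice k (N - 1 - k) with h | h
  · rw [h]
  · rw [h]
    unfold TB.mu
    have hN0 : (N : ℝ) ≠ 0 := by positivity
    have e1 : (((N - 1 - k : ℕ) : ℝ) * (((N - 1 - k : ℕ) : ℝ) + 1) / N) =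
        (N : ℝ) + (-((2 * k + 1 : ℕ) : ℝ)) + (k * (k + 1) / N) := by
      rw [Nat.sub_sub, Nat.cast_sub (by omega)]
      push_cast
      field_simp
      ring
    rw [e1, TB.ex_add, TB.ex_add, TB.ex_natCast]
    have e2 : TB.ex (-((2 * k + 1 : ℕ) : ℝ)) = -1 := by
      have h3 : TB.ex (-((2 * k + 1 : ℕ) : ℝ)) * TB.ex ((2 * k + 1 : ℕ) : ℝ) = 1 := by
        rw [← TB.ex_add, neg_add_cancel]
        unfold TB.ex; simp
      have h4 : ((-1 : ℂ)) ^ (2 * k + 1) = -1 := by rw [pow_succ, pow_mul]; norm_num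
      rw [TB.ex_natCast, h4] at h3
      linear_combination -h3
    rw [e2]
    have e3 : ((-1 : ℂ)) ^ (N - 1 - k) * (-1) ^ N = (-1) ^ (k + 1) := by
      obtain ⟨d, hd⟩ : ∃ d, N = k + 1 + d := ⟨N - (k + 1), by omega⟩
      subst hd
      rw [show k + 1 + d - 1 - k = d by omega, pow_add _ (k + 1) d]
      have h4 : ((-1 : ℂ)) ^ d * (-1) ^ d = 1 := by rw [← mul_pow]; norm_num
      linear_combination ((-1 : ℂ)) ^ (k + 1) * h4
    rw [pow_succ] at e3
    linear_combination (-TB.ex (k * (k + 1) / N)) * e3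

/-- the coordinates of the eigenvectors -/
lemma Yv_eq {N k : ℕ} (hN : 2 ≤ N) (hk : k < N) (t : Fin N) :
    Yv N k t = (-1) ^ (N - 1) * (N : ℂ) ^ 2 *
      ((bn N k (N - 1 - t) * bn N (N - 1 - k) (N - 1 - t) : ℝ) : ℂ) := by
  have hlamr : TB.lam N (N - 1 - k : ℕ) = TB.lam N k := TF.lam_reflect hk
  have ht := t.2
  unfold Yv
  by_cases h1 : (t : ℕ) < k
  · rw [dI_zero (by omega) hk, mul_zero]
    have : bn N (N - 1 - k) (N - 1 - t) = 0 := by unfold bn; rw [if_neg (by omega)]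
    rw [this]; simp
  by_cases h2 : (t : ℕ) < N - 1 - k
  · have : dI N k ((t : ℕ) + 1) = 0 := by
      unfold dI
      apply prod_eq_zero (mem_Ico.mpr ⟨h2, (by omega : N - 1 - k < N)⟩)
      rw [hlamr, sub_self]
    rw [this, mul_zero]
    have : bn N k (N - 1 - t) = 0 := by unfold bn; rw [if_neg (by omega)]
    rw [this]; simp
  obtain ⟨a, ha⟩ : ∃ a, k = a + (N - 1 - t) := ⟨k - (N - 1 - t), by omega⟩
  obtain ⟨b, hb⟩ : ∃ b, N - 1 - k = b + (N - 1 - t) := ⟨N - 1 - k - (N - 1 - t), by omega⟩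
  set n := N - 1 - (t : ℕ) with hn
  have hbn1 : bn N k n = TB.sf N k / (TB.sf N n * TB.sf N a) := by
    unfold bn; rw [if_pos (by omega), show k - n = a by omega]
  have hbn2 : bn N (N - 1 - k) n = TB.sf N (N - 1 - k) / (TB.sf N n * TB.sf N b) := by
    unfold bn; rw [if_pos (by omega), show N - 1 - k - n = b by omega]
  have hNpos : (0 : ℝ) < N := by positivity
  have pos : ∀ m : ℕ, m < N → 0 < TB.sf N m := fun m hm => TB.sf_pos (by exact_mod_cast hm)
  have s1 : TB.sf N k = TB.sf N a * ∏ i ∈ range n, TB.sb (((a + i + 1 : ℕ) : ℝ) / N) := by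
    rw [ha]; unfold TB.sf; rw [prod_range_add]
  have s2 : TB.sf N (N - 1 - k) =
      TB.sf N b * ∏ i ∈ range n, TB.sb (((b + i + 1 : ℕ) : ℝ) / N) := by
    rw [hb]; unfold TB.sf; rw [prod_range_add]
  have hd : dI N k ((t : ℕ) + 1) = (((-1) ^ n *
      ((∏ i ∈ range n, TB.sb (((a + i + 1 : ℕ) : ℝ) / N)) *
        ∏ i ∈ range n, TB.sb (((b + i + 1 : ℕ) : ℝ) / N)) : ℝ) : ℂ) := by
    unfold dI
    rw [prod_Ico_eq_prod_range, show N - ((t : ℕ) + 1) = n by omega, ← prod_mul_distrib,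
      show ((-1 : ℝ)) ^ n = ∏ i ∈ range n, (-1 : ℝ) by rw [prod_const, card_range],
      ← prod_mul_distrib]
    push_cast
    apply prod_congr rfl
    intro i hi
    rw [mem_range] at hi
    unfold TB.lam
    rw [← Complex.ofReal_sub]
    have h3 := TB.lamR_sub N ((t : ℕ) + 1 + i) k (by omega)
    have e1 : (((t : ℕ) + 1 + i + k + 1 : ℕ) : ℝ) / N = 1 + ((a + i + 1 : ℕ) : ℝ) / N := by
      have : (t : ℕ) + 1 + i + k + 1 = N + (a + i + 1) := by omega
      rw [this]; push_cast; field_simp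
    have e2 : (t : ℕ) + 1 + i - k = b + i + 1 := by omega
    have h6 : TB.sb (1 + ((a + i + 1 : ℕ) : ℝ) / N) = - TB.sb (((a + i + 1 : ℕ) : ℝ) / N) := by
      unfold TB.sb
      rw [mul_add, mul_one, add_comm Real.pi, Real.sin_add_pi]; ring
    rw [e1, e2, h6] at h3
    have h7 : TB.lamR N k - TB.lamR N ((t : ℕ) + 1 + i) =
        -1 * (TB.sb (((a + i + 1 : ℕ) : ℝ) / N) * TB.sb (((b + i + 1 : ℕ) : ℝ) / N)) := by
      linarith
    rw [h7]
    push_cast
    ring
  have hbp : bP N t = (((-1) ^ (t : ℕ) * TB.sf N t ^ 2 : ℝ) : ℂ) := by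
    unfold bP TB.sf TB.bb
    rw [← prod_pow, show ((-1 : ℝ)) ^ (t : ℕ) = ∏ i ∈ range (t : ℕ), (-1 : ℝ) by
      rw [prod_const, card_range], ← prod_mul_distrib]
    push_cast
    apply prod_congr rfl
    intro i _
    ring
  have hsf : TB.sf N t * TB.sf N n = N := TF.sf_mul_sf ht
  have hsn := (pos n (by omega)).ne'
  have hsa := (pos a (by omega)).ne'
  have hsb := (pos b (by omega)).ne'
  have hst : TB.sf N t = N / TB.sf N n := by rw [eq_div_iff hsn, hsf]
  rw [hbp, hd, hbn1, hbn2, s1, s2, hst]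
  have hpow : ((-1 : ℝ)) ^ (N - 1) = (-1) ^ (t : ℕ) * (-1) ^ n := by
    rw [← pow_add]; congr 1; omega
  have hpow' : ((-1 : ℂ)) ^ (N - 1) * (N : ℂ) ^ 2 = (((-1) ^ (N - 1) * (N : ℝ) ^ 2 : ℝ) : ℂ) := by
    push_cast; ring
  rw [hpow', ← Complex.ofReal_mul, ← Complex.ofReal_mul, hpow]
  congr 1
  field_simp

end Pool.Agent.Helper9.FA.Spec77
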